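import Pool.Agent.TH219.DL.Profile

/-!
# Double-lattice packings from a profile inequality
-/

set_option autoImplicit false

namespace Pool.Agent.X192.ML

open MeasureTheory Filter Topology
open scoped ENNReal
open Pool.Agent.H349R2.Tet
open Pool.Agent.TH219.DL

/-- the double-lattice packing of density `δ` given by the profile inequality -/
theorem double_gen {K : Set (Fin 3 → ℝ)} (hK : IsCompact K) (hc : Convex ℝ K)
    (hne : (interior K).Nonempty) {δ l : ℝ} {x0 : Fin 2 → ℝ} (hδ : 0 < δ) (hl : 0 < l)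
    (hx0 : x0 ∈ G K l) (hmax : ∀ (x : Fin 2 → ℝ) (c : ℝ), 0 ≤ c → x ∈ G K c → c ≤ l)
    (hpr : ∃ s : ℝ, l / 2 ≤ s ∧ s ≤ l ∧ δ * (3 / 2) * s < ∫ t in (0 : ℝ)..l, pf K t ^ 2 ∧
      δ * (2 * s * pf K s ^ 2 + 4 * ∫ t in (s / 2)..s, pf K t ^ 2)
        < ∫ t in (0 : ℝ)..l, pf K t ^ 2) :
    ∃ (v : Fin 3 → ℝ) (b : Fin 3 → (Fin 3 → ℝ)), 0 < dt b ∧
      (∀ s ∈ lat b, s ≠ 0 → ¬ Ov K s) ∧
      (∀ s ∈ lat b, Disjoint (interior K) (interior (tr (rfl' K v) s))) ∧
      ENNReal.ofReal δ * ENNReal.ofReal (dt b) ≤ 2 * volume K := by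
  have hPc := shadow_compact hK
  have hPi := shadow_interior hne
  have hPpos : 0 < volume (G K 0) :=
    lt_of_lt_of_le (isOpen_interior.measure_pos volume hPi) (measure_mono interior_subset)
  have ha0 : 0 < ar K 0 := ENNReal.toReal_pos hPpos.ne' hPc.measure_ne_top
  have hp := prof hK hc hl hx0 ha0
  obtain ⟨s, hs1, hs2, hs3, hs4⟩ := hpr
  set X := ∫ t in (0 : ℝ)..l, pf K t ^ 2 with hX
  have hs0 : 0 < s := by linarith
  have hXpos : 0 < X := by
    have : 0 < δ * (3 / 2) * s := by positivity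
    linarith
  set a0 := ar K 0 with ha0def
  set D := a0 * X / (δ * s) with hD
  have hDpos : 0 < D := by positivity
  obtain ⟨u, w, hD0, hD0le, hadm⟩ := fary (shadow_convex hc) hPc hPi
  set D0 := u 0 * w 1 - u 1 * w 0 with hD0def
  have hD0le' : D0 ≤ 3 / 2 * a0 := by
    have e : volume (G K 0) = ENNReal.ofReal a0 :=
      (ENNReal.ofReal_toReal hPc.measure_ne_top).symm
    rw [e, ← ENNReal.ofReal_mul (by norm_num), ENNReal.ofReal_le_ofReal_iff (by positivity)]
      at hD0le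
    exact hD0le
  have hDD0 : D0 ≤ D := by
    refine hD0le'.trans ?_
    rw [hD, le_div_iff₀ (by positivity)]
    have h9 : a0 * (δ * (3 / 2) * s) ≤ a0 * X := mul_le_mul_of_nonneg_left hs3.le ha0.le
    calc 3 / 2 * a0 * (δ * s) = a0 * (δ * (3 / 2) * s) := by ring
      _ ≤ a0 * X := h9
  set k := Real.sqrt (D / D0) with hk
  have hk1 : 1 ≤ k := by
    rw [hk]
    apply Real.one_le_sqrt.2
    rw [one_le_div hD0]; exact hDD0
  have hk2 : k ^ 2 * D0 = D := by
    rw [hk, Real.sq_sqrt (by positivity), div_mul_cancel₀ _ hD0.ne']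
  have hadm' := adm_scale (hPi.mono interior_subset) hadm hk1
  have hdet : (k • u) 0 * (k • w) 1 - (k • u) 1 * (k • w) 0 = D := by
    rw [← hk2, hD0def]; simp; ring
  have hlt : ∫⁻ x, Ph K s x < ENNReal.ofReal (D / 4) := by
    rw [lint_Ph hK hs0]
    have e1 : ∫⁻ τ in Set.Ioo (s / 2) s, volume (G K τ)
        = ENNReal.ofReal (a0 * ∫ t in (s / 2)..s, pf K t ^ 2) := by
      rw [← lint_pf hK hp ha0 (by linarith) (by linarith) hs2]
      exact setLIntegral_congr Ioo_ae_eq_Ioc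
    have hint : 0 ≤ ∫ t in (s / 2)..s, pf K t ^ 2 :=
      intervalIntegral.integral_nonneg (by linarith) fun t _ => sq_nonneg _
    rw [e1, vol_pf hK ha0 hs0.le, ← ENNReal.ofReal_mul (by norm_num),
      ← ENNReal.ofReal_mul (by positivity), ← ENNReal.ofReal_add (by positivity) (by positivity),
      ENNReal.ofReal_lt_ofReal_iff (by positivity)]
    rw [hD]
    have e2 : 1 / 2 * (a0 * pf K s ^ 2) + 1 / s * (a0 * ∫ t in (s / 2)..s, pf K t ^ 2)
        = a0 * (δ * (2 * s * pf K s ^ 2 + 4 * ∫ t in (s / 2)..s, pf K t ^ 2))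
          / (δ * s) / 4 := by
      field_simp
      ring
    rw [e2]
    apply div_lt_div_of_pos_right _ (by norm_num)
    apply div_lt_div_of_pos_right _ (by positivity)
    exact mul_lt_mul_of_pos_left hs4 ha0
  obtain ⟨v, b, hb1, hb2, hb3⟩ := double_pack hK hc hs0
    (fun x c hc0 hx => (hmax x c hc0 hx).trans (by linarith)) (by rw [hdet]; exact hDpos)
    hadm' (by rw [hdet]; exact hlt)
  rw [hdet] at hb1
  refine ⟨v, b, by rw [hb1]; positivity, hb2, hb3, ?_⟩
  have hvol : ENNReal.ofReal (a0 * X) ≤ volume K := by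
    refine le_trans ?_ (vol_ge hK hc)
    rw [hX, ← lint_pf hK hp ha0 le_rfl hl.le le_rfl]
    exact lintegral_mono_set fun c hcc => le_of_lt hcc.1
  rw [hb1, ← ENNReal.ofReal_mul hδ.le]
  have e3 : δ * (2 * s * D) = 2 * (a0 * X) := by
    rw [hD]; field_simp
  rw [e3, ENNReal.ofReal_mul (by norm_num)]
  have e4 : ENNReal.ofReal 2 = 2 := by simp
  rw [e4]
  gcongr

end Pool.Agent.X192.ML
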