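import Pool.Agent.Y498.ML.Hole

/-!
# Deep holes of planar lattices: the covering radius in terms of the determinant
-/

set_option autoImplicit false

namespace Pool.Agent.X192.ML

open Pool.Agent.Y498.ML

/-- Schur's inequality of degree one -/
theorem schur {x y z : ℝ} (hx : 0 ≤ x) (hy : 0 ≤ y) (hz : 0 ≤ z) :
    0 ≤ x * (x - y) * (x - z) + y * (y - x) * (y - z) + z * (z - x) * (z - y) := by
  rcases le_total x y with h1 | h1 <;> rcases le_total y z with h2 | h2 <;>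
    rcases le_total x z with h3 | h3 <;>
    nlinarith [mul_nonneg (sub_nonneg.2 h1) (sub_nonneg.2 h2),
      mul_nonneg (sub_nonneg.2 h1) (sub_nonneg.2 h3),
      mul_nonneg (sub_nonneg.2 h2) (sub_nonneg.2 h3),
      mul_nonneg hx (sq_nonneg (x - y)), mul_nonneg hy (sq_nonneg (x - y)),
      mul_nonneg hz (sq_nonneg (x - y)), mul_nonneg hx (sq_nonneg (x - z)),
      mul_nonneg hy (sq_nonneg (x - z)), mul_nonneg hz (sq_nonneg (x - z)),
      mul_nonneg hx (sq_nonneg (y - z)), mul_nonneg hy (sq_nonneg (y - z)),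
      mul_nonneg hz (sq_nonneg (y - z)),
      mul_nonneg hx (mul_nonneg (sub_nonneg.2 h1) (sub_nonneg.2 h3)),
      mul_nonneg hz (mul_nonneg (sub_nonneg.2 h2) (sub_nonneg.2 h3)),
      mul_nonneg hy (mul_nonneg (sub_nonneg.2 h1) (sub_nonneg.2 h2)),
      mul_nonneg hx (mul_nonneg (sub_nonneg.2 h1) (sub_nonneg.2 h2)),
      mul_nonneg hz (mul_nonneg (sub_nonneg.2 h1) (sub_nonneg.2 h2)),
      mul_nonneg hy (mul_nonneg (sub_nonneg.2 h1) (sub_nonneg.2 h3)),
      mul_nonneg hz (mul_nonneg (sub_nonneg.2 h1) (sub_nonneg.2 h3)),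
      mul_nonneg hx (mul_nonneg (sub_nonneg.2 h2) (sub_nonneg.2 h3)),
      mul_nonneg hy (mul_nonneg (sub_nonneg.2 h2) (sub_nonneg.2 h3))]

/-- the circumradius of a lattice triangle and the determinant of the lattice -/
theorem circ_det {a b c η : ℝ} (ha : 0 ≤ a) (hc : 0 ≤ c) (hba : 2 * b ≤ a) (hbc : 2 * b ≤ c)
    (hΔ : 0 < a * c - b ^ 2) (hη : 0 ≤ η) (h : 27 * η ^ 2 ≤ 4 * (a * c - b ^ 2)) :
    η ≤ a * c * (a + c - 2 * b) / (4 * (a * c - b ^ 2)) := by
  have hz : 0 ≤ a + c - 2 * b := by linarith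
  have h1 := schur ha hc hz
  set σ := a + c + (a + c - 2 * b) with hσ
  have hσ0 : 0 ≤ σ := by rw [hσ]; linarith
  have h2 : σ * (4 * (a * c - b ^ 2)) ≤ 9 * (a * c * (a + c - 2 * b)) := by
    rw [hσ]; nlinarith [h1]
  have h3 : 12 * (a * c - b ^ 2) ≤ σ ^ 2 := by
    rw [hσ]; nlinarith [sq_nonneg (a - c), sq_nonneg (a - (a + c - 2 * b)),
      sq_nonneg (c - (a + c - 2 * b))]
  have h4 : 9 * η ≤ σ := by
    apply le_of_sq_le_sq _ hσ0
    nlinarith
  rw [le_div_iff₀ (by linarith)]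
  nlinarith [mul_le_mul_of_nonneg_right h4 hΔ.le]

/-- the deep hole of a planar lattice of given determinant -/
theorem hole2 {u w : Fin 2 → ℝ} (hD : 0 < u 0 * w 1 - u 1 * w 0) {η : ℝ} (hη : 0 ≤ η)
    (h27 : 27 * η ^ 2 ≤ 4 * (u 0 * w 1 - u 1 * w 0) ^ 2) :
    ∃ t : Fin 2 → ℝ, ∀ m n : ℤ,
      η ≤ (t 0 - (m * u 0 + n * w 0)) ^ 2 + (t 1 - (m * u 1 + n * w 1)) ^ 2 := by
  obtain ⟨u', w', p, q, r, s, h1, hu', hw', h2, h3, h4⟩ := reduced hD
  have hε : p * s - q * r = 1 ∨ p * s - q * r = -1 := by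
    have h : (p * s - q * r - 1) * (p * s - q * r + 1) = 0 := by linear_combination h1
    rcases mul_eq_zero.1 h with h | h
    · left; omega
    · right; omega
  have h1R : ((p : ℝ) * s - q * r) ^ 2 = 1 := by exact_mod_cast h1
  set a := u' 0 ^ 2 + u' 1 ^ 2 with had
  set c := w' 0 ^ 2 + w' 1 ^ 2 with hcd
  set b := u' 0 * w' 0 + u' 1 * w' 1 with hbd
  have hdet : a * c - b ^ 2 = (u 0 * w 1 - u 1 * w 0) ^ 2 := by
    have : a * c - b ^ 2 = (u' 0 * w' 1 - u' 1 * w' 0) ^ 2 := by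
      rw [had, hcd, hbd]; ring
    rw [this, hu' 0, hu' 1, hw' 0, hw' 1]
    linear_combination (u 0 * w 1 - u 1 * w 0) ^ 2 * h1R
  have hΔ : 0 < a * c - b ^ 2 := by rw [hdet]; positivity
  obtain ⟨t, ht⟩ := hole_red (u := u') (w := w') had hcd hbd hΔ h2 h3 h4
  refine ⟨t, fun m n => ?_⟩
  have h5 := circ_det (η := η) (by rw [had]; positivity) (by rw [hcd]; positivity) h3 h4 hΔ hη
    (by rw [hdet]; exact h27)
  rcases hε with h | h
  · have hR : (p : ℝ) * s - q * r = 1 := by exact_mod_cast h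
    have h6 := ht (m * s - n * r) (-m * q + n * p)
    rw [hu' 0, hu' 1, hw' 0, hw' 1] at h6
    push_cast at h6
    have e0 : ((m : ℝ) * s - n * r) * (p * u 0 + q * w 0) + (-m * q + n * p) * (r * u 0 + s * w 0)
        = m * u 0 + n * w 0 := by linear_combination (m * u 0 + n * w 0) * hR
    have e1 : ((m : ℝ) * s - n * r) * (p * u 1 + q * w 1) + (-m * q + n * p) * (r * u 1 + s * w 1)
        = m * u 1 + n * w 1 := by linear_combination (m * u 1 + n * w 1) * hR
    rw [e0, e1] at h6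
    linarith
  · have hR : (p : ℝ) * s - q * r = -1 := by exact_mod_cast h
    have h6 := ht (-(m * s - n * r)) (-(-m * q + n * p))
    rw [hu' 0, hu' 1, hw' 0, hw' 1] at h6
    push_cast at h6
    have e0 : (-((m : ℝ) * s - n * r)) * (p * u 0 + q * w 0)
        + (-(-m * q + n * p)) * (r * u 0 + s * w 0)
        = m * u 0 + n * w 0 := by linear_combination (-(m * u 0 + n * w 0)) * hR
    have e1 : (-((m : ℝ) * s - n * r)) * (p * u 1 + q * w 1)
        + (-(-m * q + n * p)) * (r * u 1 + s * w 1)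
        = m * u 1 + n * w 1 := by linear_combination (-(m * u 1 + n * w 1)) * hR
    rw [e0, e1] at h6
    linarith

end Pool.Agent.X192.ML
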