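import Pool.Agent.Y498.ML.Geo
import Pool.Agent.X192.ML.Fary2
import Pool.Agent.X192.ML.Hole2

/-!
# Columns over Fáry's lattice, shifted to the deep hole
-/

set_option autoImplicit false

namespace Pool.Agent.X192.ML

open MeasureTheory Filter Topology
open scoped ENNReal
open Pool.Agent.H349R2.Tet
open Pool.Agent.TH219.DL
open Pool.Agent.Y498.ML

/-- the ellipse through the vertices of the hexagon -/
theorem ell {a b c x y : ℝ} (hx : |x| ≤ a) (hy : |y| ≤ b) (hz : |x + y| ≤ c) :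
    b * x ^ 2 + (a + b - c) * (x * y) + a * y ^ 2 ≤ a * b * c := by
  obtain ⟨x1, x2⟩ := abs_le.1 hx
  obtain ⟨y1, y2⟩ := abs_le.1 hy
  obtain ⟨z1, z2⟩ := abs_le.1 hz
  have h1 : 0 ≤ (a + x) * (b + y) * (c - (x + y)) :=
    mul_nonneg (mul_nonneg (by linarith) (by linarith)) (by linarith)
  have h2 : 0 ≤ (a - x) * (b - y) * (c + (x + y)) :=
    mul_nonneg (mul_nonneg (by linarith) (by linarith)) (by linarith)
  nlinarith

/-- the numerical inequality -/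
theorem num {a b c M : ℝ} (ha : 1 ≤ a ∧ a ≤ 2) (hb : 1 ≤ b ∧ b ≤ 2) (hc : 1 ≤ c ∧ c ≤ 2)
    (hM : 0 < M)
    (hQM : 16 * (a * b - ((a + b - c) / 2) ^ 2) ≤ 25 * (a * b * c) ^ 2 * M ^ 2) :
    ∃ η : ℝ, 0 ≤ η ∧ η ≤ 1 / 5 ∧
      27 * η ^ 2 ≤ 4 * (M * (a * b - ((a + b - c) / 2) ^ 2)) ^ 2 ∧
      5 * (1 - η) * (4 * (a * b - ((a + b - c) / 2) ^ 2)) ^ 2 ≤ (6 * (a + b + c - 2)) ^ 2 := by
  obtain ⟨a1, a2⟩ := ha
  obtain ⟨b1, b2⟩ := hb
  obtain ⟨c1, c2⟩ := hc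
  set R := a * b - ((a + b - c) / 2) ^ 2 with hR
  set σ := a + b + c with hσ
  have hσ3 : 3 ≤ σ := by rw [hσ]; linarith
  have hσ6 : σ ≤ 6 := by rw [hσ]; linarith
  have hR0 : 0 < R := by
    rw [hR]
    nlinarith [mul_nonneg (sub_nonneg.2 a1) (sub_nonneg.2 b1),
      mul_nonneg (sub_nonneg.2 b1) (sub_nonneg.2 c1),
      mul_nonneg (sub_nonneg.2 a1) (sub_nonneg.2 c1), mul_nonneg (sub_nonneg.2 a1) (sub_nonneg.2 a2),
      mul_nonneg (sub_nonneg.2 b1) (sub_nonneg.2 b2), mul_nonneg (sub_nonneg.2 c1) (sub_nonneg.2 c2),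
      mul_nonneg (sub_nonneg.2 a1) (sub_nonneg.2 b2), mul_nonneg (sub_nonneg.2 b1) (sub_nonneg.2 c2),
      mul_nonneg (sub_nonneg.2 c1) (sub_nonneg.2 a2)]
  have h12 : 12 * R ≤ σ ^ 2 := by
    rw [hR, hσ]
    nlinarith [sq_nonneg (a - b), sq_nonneg (b - c), sq_nonneg (a - c)]
  have habc : 27 * (a * b * c) ≤ σ ^ 3 := by
    rw [hσ]
    nlinarith [mul_nonneg (by linarith : 0 ≤ a) (sq_nonneg (b - c)),
      mul_nonneg (by linarith : 0 ≤ b) (sq_nonneg (a - c)),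
      mul_nonneg (by linarith : 0 ≤ c) (sq_nonneg (a - b)),
      mul_nonneg (by linarith : 0 ≤ a) (sq_nonneg (a - b)),
      mul_nonneg (by linarith : 0 ≤ a) (sq_nonneg (a - c)),
      mul_nonneg (by linarith : 0 ≤ b) (sq_nonneg (a - b)),
      mul_nonneg (by linarith : 0 ≤ b) (sq_nonneg (b - c)),
      mul_nonneg (by linarith : 0 ≤ c) (sq_nonneg (b - c)),
      mul_nonneg (by linarith : 0 ≤ c) (sq_nonneg (a - c))]
  set θ := √(12 * R) / σ with hθ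
  have hσ0 : 0 < σ := by linarith
  have hs : √(12 * R) ^ 2 = 12 * R := Real.sq_sqrt (by positivity)
  have hθ0 : 0 ≤ θ := by positivity
  have hθσ : θ * σ = √(12 * R) := by rw [hθ]; field_simp
  have hθ2 : (θ * σ) ^ 2 = 12 * R := by rw [hθσ, hs]
  have hθ1 : θ ≤ 1 := by
    rw [hθ, div_le_one hσ0]
    apply Real.sqrt_le_iff.2
    exact ⟨hσ0.le, h12⟩
  have hR' : R = θ ^ 2 * σ ^ 2 / 12 := by
    have : (θ * σ) ^ 2 = θ ^ 2 * σ ^ 2 := by ring
    linarith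
  have hθ31 : θ ^ 3 ≤ 1 := pow_le_one₀ hθ0 hθ1
  refine ⟨θ ^ 3 / 5, by positivity, by linarith, ?_, ?_⟩
  · -- the determinant
    have hP : 0 < a * b * c := by positivity
    have h2 : (27 * (a * b * c)) ^ 2 ≤ (σ ^ 3) ^ 2 := pow_le_pow_left₀ (by positivity) habc 2
    have h3 : 27 * (θ ^ 3 / 5) ^ 2 * (25 * (a * b * c) ^ 2) ≤ 64 * R ^ 3 := by
      have e1 : 27 * (θ ^ 3 / 5) ^ 2 * (25 * (a * b * c) ^ 2)
          = θ ^ 6 / 27 * (27 * (a * b * c)) ^ 2 := by ring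
      have e2 : 64 * R ^ 3 = θ ^ 6 / 27 * (σ ^ 3) ^ 2 := by rw [hR']; ring
      rw [e1, e2]
      exact mul_le_mul_of_nonneg_left h2 (by positivity)
    have h4 : 64 * R ^ 3 ≤ 4 * (M * R) ^ 2 * (25 * (a * b * c) ^ 2) := by
      have h5 := mul_le_mul_of_nonneg_left hQM (by positivity : 0 ≤ 4 * R ^ 2)
      linarith
    have h6 := h3.trans h4
    exact le_of_mul_le_mul_right h6 (by positivity)
  · have h1 : 0 ≤ (σ - 3) * (6 - σ) := mul_nonneg (by linarith) (by linarith)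
    have h2 : σ ^ 2 ≤ 9 * (σ - 2) := by nlinarith
    have h3 : (σ ^ 2) ^ 2 ≤ (9 * (σ - 2)) ^ 2 := pow_le_pow_left₀ (by positivity) h2 2
    have h4 : 5 * θ ^ 4 - θ ^ 7 ≤ 4 := by
      have e : 4 - (5 * θ ^ 4 - θ ^ 7) = (1 - θ) * (4 * (1 + θ + θ ^ 2 + θ ^ 3) - θ ^ 4
          - θ ^ 5 - θ ^ 6) := by ring
      have k1 : θ ^ 4 ≤ 1 := pow_le_one₀ hθ0 hθ1
      have k2 : θ ^ 5 ≤ 1 := pow_le_one₀ hθ0 hθ1
      have k3 : θ ^ 6 ≤ 1 := pow_le_one₀ hθ0 hθ1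
      have k4 : 0 ≤ θ ^ 2 := by positivity
      have k5 : 0 ≤ θ ^ 3 := by positivity
      have : 0 ≤ (1 - θ) * (4 * (1 + θ + θ ^ 2 + θ ^ 3) - θ ^ 4 - θ ^ 5 - θ ^ 6) :=
        mul_nonneg (by linarith) (by linarith)
      linarith
    have e1 : 5 * (1 - θ ^ 3 / 5) * (4 * R) ^ 2 = (5 * θ ^ 4 - θ ^ 7) * ((σ ^ 2) ^ 2 / 9) := by
      rw [hR']; ring
    rw [e1]
    calc (5 * θ ^ 4 - θ ^ 7) * ((σ ^ 2) ^ 2 / 9) ≤ 4 * ((σ ^ 2) ^ 2 / 9) :=
          mul_le_mul_of_nonneg_right h4 (by positivity)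
      _ ≤ 4 * ((9 * (σ - 2)) ^ 2 / 9) := by linarith
      _ = (6 * (σ - 2)) ^ 2 := by ring

/-- a body of diameter one with a vertical chord of length one and a wide shadow -/
theorem geo_low2 {K : Set V} (hK : IsCompact K) (hc : Convex ℝ K) (hne : (interior K).Nonempty)
    (hd : ∀ x ∈ K, ∀ y ∈ K, (x 0 - y 0) ^ 2 + (x 1 - y 1) ^ 2 + (x 2 - y 2) ^ 2 ≤ 1)
    {x0 : Fin 2 → ℝ} (hx0 : x0 ∈ G K 1)
    (hw : ∀ α β γ : ℝ, 0 < α + γ → ∃ x ∈ K, ∃ y ∈ K,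
      α + γ ≤ 5 / 2 * (α * (x 1 - y 1) ^ 2 + 2 * β * ((x 1 - y 1) * (x 2 - y 2))
        + γ * (x 2 - y 2) ^ 2)) :
    ∃ b : Fin 3 → V, Packs K b ∧
      ENNReal.ofReal (√5 / 9) * ENNReal.ofReal |dt b| ≤ volume K := by
  obtain ⟨u, w, M, a, b, c, p1, p2, q1, q2, hM, ha, hb, hc', hpq, hdet, hvol, hfA, hfB, hfC,
    hadm⟩ := fary2 (shadow_convex hc) (shadow_compact hK) (shadow_interior hne)
  set R := a * b - ((a + b - c) / 2) ^ 2 with hR
  have hP : 0 < a * b * c := by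
    obtain ⟨a1, -⟩ := ha
    obtain ⟨b1, -⟩ := hb
    obtain ⟨c1, -⟩ := hc'
    positivity
  -- the determinant of the lattice is not small
  have hQM : 16 * R ≤ 25 * (a * b * c) ^ 2 * M ^ 2 := by
    by_contra hcon
    push Not at hcon
    set α := b * p1 ^ 2 + (a + b - c) * (p1 * q1) + a * q1 ^ 2 with hα
    set γ := b * p2 ^ 2 + (a + b - c) * (p2 * q2) + a * q2 ^ 2 with hγ
    set β := b * (p1 * p2) + (a + b - c) / 2 * (p1 * q2 + p2 * q1) + a * (q1 * q2) with hβ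
    have hαγ : α * γ - β ^ 2 = R * M ^ 2 := by
      rw [hα, hγ, hβ, hR, ← hpq]; ring
    have hR0 : 0 < R := by
      have : 0 ≤ 25 * (a * b * c) ^ 2 * M ^ 2 := by positivity
      linarith
    have hb0 : 0 < b := by linarith [hb.1]
    have hα0 : 0 ≤ α := by
      have e : b * α = (b * p1 + (a + b - c) / 2 * q1) ^ 2 + R * q1 ^ 2 := by
        rw [hα, hR]; ring
      have : 0 ≤ b * α := by rw [e]; positivity
      exact nonneg_of_mul_nonneg_right this hb0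
    have hγ0 : 0 ≤ γ := by
      have e : b * γ = (b * p2 + (a + b - c) / 2 * q2) ^ 2 + R * q2 ^ 2 := by
        rw [hγ, hR]; ring
      have : 0 ≤ b * γ := by rw [e]; positivity
      exact nonneg_of_mul_nonneg_right this hb0
    have h4 : 4 * (R * M ^ 2) ≤ (α + γ) ^ 2 := by
      rw [← hαγ]
      nlinarith [sq_nonneg (α - γ), sq_nonneg β]
    have hpos : 0 < α + γ := by
      by_contra hle
      push Not at hle
      have h0 : α + γ = 0 := le_antisymm hle (by linarith)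
      rw [h0] at h4
      have : 0 < R * M ^ 2 := by positivity
      linarith
    obtain ⟨x, hx, y, hy, hxy⟩ := hw α β γ hpos
    have hgx : pr x ∈ G K 0 := by rw [G_zero]; exact ⟨x, hx, rfl⟩
    have hgy : pr y ∈ G K 0 := by rw [G_zero]; exact ⟨y, hy, rfl⟩
    have a1 := hfA _ hgx _ hgy
    have a2 := hfA _ hgy _ hgx
    have b1 := hfB _ hgx _ hgy
    have b2 := hfB _ hgy _ hgx
    have c1 := hfC _ hgx _ hgy
    have c2 := hfC _ hgy _ hgx
    simp only [pr_zero, pr_one] at a1 a2 b1 b2 c1 c2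
    set X := (p1 * (x 1 - y 1) + p2 * (x 2 - y 2)) / M with hX
    set Y := (q1 * (x 1 - y 1) + q2 * (x 2 - y 2)) / M with hY
    have eX : p1 * (x 1 - y 1) + p2 * (x 2 - y 2) = X * M := by rw [hX]; field_simp
    have eY : q1 * (x 1 - y 1) + q2 * (x 2 - y 2) = Y * M := by rw [hY]; field_simp
    have hXa : |X| ≤ a := by
      rw [abs_le]
      constructor
      · refine le_of_mul_le_mul_right ?_ hM
        linarith
      · refine le_of_mul_le_mul_right ?_ hM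
        linarith
    have hYb : |Y| ≤ b := by
      rw [abs_le]
      constructor
      · refine le_of_mul_le_mul_right ?_ hM
        linarith
      · refine le_of_mul_le_mul_right ?_ hM
        linarith
    have hZc : |X + Y| ≤ c := by
      rw [abs_le]
      constructor
      · refine le_of_mul_le_mul_right ?_ hM
        linarith
      · refine le_of_mul_le_mul_right ?_ hM
        linarith
    have h5 := ell hXa hYb hZc
    have h6 : α * (x 1 - y 1) ^ 2 + 2 * β * ((x 1 - y 1) * (x 2 - y 2)) + γ * (x 2 - y 2) ^ 2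
        = (b * X ^ 2 + (a + b - c) * (X * Y) + a * Y ^ 2) * M ^ 2 := by
      have : (b * X ^ 2 + (a + b - c) * (X * Y) + a * Y ^ 2) * M ^ 2
          = b * (X * M) ^ 2 + (a + b - c) * ((X * M) * (Y * M)) + a * (Y * M) ^ 2 := by ring
      rw [this, ← eX, ← eY, hα, hβ, hγ]
      ring
    rw [h6] at hxy
    have h7 : α + γ ≤ 5 / 2 * (a * b * c * M ^ 2) := by
      have := mul_le_mul_of_nonneg_right h5 (by positivity : 0 ≤ M ^ 2)
      linarith
    have h8 : (α + γ) ^ 2 ≤ (5 / 2 * (a * b * c * M ^ 2)) ^ 2 := pow_le_pow_left₀ hpos.le h7 2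
    have h9 : 4 * (R * M ^ 2) ≤ 25 / 4 * (a * b * c) ^ 2 * M ^ 2 * M ^ 2 := by
      calc 4 * (R * M ^ 2) ≤ (5 / 2 * (a * b * c * M ^ 2)) ^ 2 := h4.trans h8
        _ = _ := by ring
    have h10 : 4 * R ≤ 25 / 4 * (a * b * c) ^ 2 * M ^ 2 := by
      refine le_of_mul_le_mul_right ?_ (by positivity : 0 < M ^ 2)
      linarith
    linarith
  obtain ⟨η, hη0, hη5, hη27, hηn⟩ := num ha hb hc' hM hQM
  rw [← hR] at hη27 hηn
  have hR0 : 0 < R := by
    obtain ⟨a1, a2⟩ := ha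
    obtain ⟨b1, b2⟩ := hb
    obtain ⟨c1, c2⟩ := hc'
    rw [hR]
    nlinarith [mul_nonneg (sub_nonneg.2 a1) (sub_nonneg.2 b1),
      mul_nonneg (sub_nonneg.2 b1) (sub_nonneg.2 c1),
      mul_nonneg (sub_nonneg.2 a1) (sub_nonneg.2 c1), mul_nonneg (sub_nonneg.2 a1) (sub_nonneg.2 a2),
      mul_nonneg (sub_nonneg.2 b1) (sub_nonneg.2 b2), mul_nonneg (sub_nonneg.2 c1) (sub_nonneg.2 c2),
      mul_nonneg (sub_nonneg.2 a1) (sub_nonneg.2 b2), mul_nonneg (sub_nonneg.2 b1) (sub_nonneg.2 c2),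
      mul_nonneg (sub_nonneg.2 c1) (sub_nonneg.2 a2)]
  have hD : 0 < u 0 * w 1 - u 1 * w 0 := by rw [hdet]; positivity
  obtain ⟨t, ht⟩ := hole2 hD hη0 (by rw [hdet]; exact hη27)
  set s : ℝ := √(1 - η) with hs
  have hs2 : s ^ 2 = 1 - η := Real.sq_sqrt (by linarith)
  have hs0 : 0 < s := Real.sqrt_pos.2 (by linarith)
  have hpk : Packs K (bh s t u w) := by
    refine hole_packs hs0 hd hD hadm (by rw [hs2]; linarith) fun m n => ?_
    have := ht m n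
    rw [hs2]
    linarith
  refine ⟨bh s t u w, hpk, ?_⟩
  rw [dt_bh, abs_of_pos (mul_pos hs0 hD), ← ENNReal.ofReal_mul (by positivity), hdet]
  have hσ2 : 0 ≤ 6 * (a + b + c - 2) := by linarith [ha.1, hb.1, hc'.1]
  have hkey : √5 * s * (4 * R) ≤ 6 * (a + b + c - 2) := by
    apply le_of_sq_le_sq _ hσ2
    have h5 : √5 ^ 2 = 5 := Real.sq_sqrt (by norm_num)
    calc (√5 * s * (4 * R)) ^ 2 = √5 ^ 2 * s ^ 2 * (4 * R) ^ 2 := by ring
      _ = 5 * (1 - η) * (4 * R) ^ 2 := by rw [h5, hs2]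
      _ ≤ _ := hηn
  have e1 : √5 / 9 * (s * (M * R)) ≤ 1 / 3 * (M * (a + b + c - 2) / 2) := by
    have := mul_le_mul_of_nonneg_left hkey hM.le
    linarith
  have hcone := cone hK hc one_pos hx0
  calc ENNReal.ofReal (√5 / 9 * (s * (M * R)))
      ≤ ENNReal.ofReal (1 / 3 * (M * (a + b + c - 2) / 2)) := ENNReal.ofReal_le_ofReal e1
    _ = ENNReal.ofReal (1 / 3) * ENNReal.ofReal (M * (a + b + c - 2) / 2) :=
        ENNReal.ofReal_mul (by norm_num)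
    _ ≤ ENNReal.ofReal (1 / 3) * volume (G K 0) := by gcongr
    _ ≤ volume K := hcone

end Pool.Agent.X192.ML
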