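import Pool.Agent.X192.ML.Geo2

/-!
# Columns over Fáry's lattice, shifted to the deep hole: bodies of given relative volume
-/

set_option autoImplicit false

namespace Pool.Agent.X192.ML

open MeasureTheory Filter Topology
open scoped ENNReal
open Pool.Agent.H349R2.Tet
open Pool.Agent.TH219.DL
open Pool.Agent.Y498.ML

/-- a body of diameter one with a vertical chord of length one and a wide shadow -/
theorem geo_low3 {K : Set V} (hK : IsCompact K) (hc : Convex ℝ K) (hne : (interior K).Nonempty)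
    (hd : ∀ x ∈ K, ∀ y ∈ K, (x 0 - y 0) ^ 2 + (x 1 - y 1) ^ 2 + (x 2 - y 2) ^ 2 ≤ 1)
    {X0 : ℝ} (hX0 : 0 ≤ X0) (hXv : ENNReal.ofReal X0 * volume (G K 0) ≤ volume K)
    (hw : ∀ α β γ : ℝ, 0 < α + γ → ∃ x ∈ K, ∃ y ∈ K,
      α + γ ≤ 5 / 2 * (α * (x 1 - y 1) ^ 2 + 2 * β * ((x 1 - y 1) * (x 2 - y 2))
        + γ * (x 2 - y 2) ^ 2)) :
    ∃ b : Fin 3 → V, Packs K b ∧
      ENNReal.ofReal (√5 / 3 * X0) * ENNReal.ofReal |dt b| ≤ volume K := by
  obtain ⟨u, w, M, a, b, c, p1, p2, q1, q2, hM, ha, hb, hc', hpq, hdet, hvol, hfA, hfB, hfC,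
    hadm⟩ := fary2 (shadow_convex hc) (shadow_compact hK) (shadow_interior hne)
  set R := a * b - ((a + b - c) / 2) ^ 2 with hR
  have hP : 0 < a * b * c := by
    obtain ⟨a1, -⟩ := ha
    obtain ⟨b1, -⟩ := hb
    obtain ⟨c1, -⟩ := hc'
    positivity
  -- the determinant of the lattice is not small
  have hQM : 16 * R ≤ 25 * (a * b * c) ^ 2 * M ^ 2 := by
    by_contra hcon
    push Not at hcon
    set α := b * p1 ^ 2 + (a + b - c) * (p1 * q1) + a * q1 ^ 2 with hα
    set γ := b * p2 ^ 2 + (a + b - c) * (p2 * q2) + a * q2 ^ 2 with hγ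
    set β := b * (p1 * p2) + (a + b - c) / 2 * (p1 * q2 + p2 * q1) + a * (q1 * q2) with hβ
    have hαγ : α * γ - β ^ 2 = R * M ^ 2 := by
      rw [hα, hγ, hβ, hR, ← hpq]; ring
    have hR0 : 0 < R := by
      have : 0 ≤ 25 * (a * b * c) ^ 2 * M ^ 2 := by positivity
      linarith
    have hb0 : 0 < b := by linarith [hb.1]
    have hα0 : 0 ≤ α := by
      have e : b * α = (b * p1 + (a + b - c) / 2 * q1) ^ 2 + R * q1 ^ 2 := by
        rw [hα, hR]; ring
      have : 0 ≤ b * α := by rw [e]; positivity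
      exact nonneg_of_mul_nonneg_right this hb0
    have hγ0 : 0 ≤ γ := by
      have e : b * γ = (b * p2 + (a + b - c) / 2 * q2) ^ 2 + R * q2 ^ 2 := by
        rw [hγ, hR]; ring
      have : 0 ≤ b * γ := by rw [e]; positivity
      exact nonneg_of_mul_nonneg_right this hb0
    have h4 : 4 * (R * M ^ 2) ≤ (α + γ) ^ 2 := by
      rw [← hαγ]
      nlinarith [sq_nonneg (α - γ), sq_nonneg β]
    have hpos : 0 < α + γ := by
      by_contra hle
      push Not at hle
      have h0 : α + γ = 0 := le_antisymm hle (by linarith)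
      rw [h0] at h4
      have : 0 < R * M ^ 2 := by positivity
      linarith
    obtain ⟨x, hx, y, hy, hxy⟩ := hw α β γ hpos
    have hgx : pr x ∈ G K 0 := by rw [G_zero]; exact ⟨x, hx, rfl⟩
    have hgy : pr y ∈ G K 0 := by rw [G_zero]; exact ⟨y, hy, rfl⟩
    have a1 := hfA _ hgx _ hgy
    have a2 := hfA _ hgy _ hgx
    have b1 := hfB _ hgx _ hgy
    have b2 := hfB _ hgy _ hgx
    have c1 := hfC _ hgx _ hgy
    have c2 := hfC _ hgy _ hgx
    simp only [pr_zero, pr_one] at a1 a2 b1 b2 c1 c2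
    set X := (p1 * (x 1 - y 1) + p2 * (x 2 - y 2)) / M with hX
    set Y := (q1 * (x 1 - y 1) + q2 * (x 2 - y 2)) / M with hY
    have eX : p1 * (x 1 - y 1) + p2 * (x 2 - y 2) = X * M := by rw [hX]; field_simp
    have eY : q1 * (x 1 - y 1) + q2 * (x 2 - y 2) = Y * M := by rw [hY]; field_simp
    have hXa : |X| ≤ a := by
      rw [abs_le]
      constructor
      · refine le_of_mul_le_mul_right ?_ hM
        linarith
      · refine le_of_mul_le_mul_right ?_ hM
        linarith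
    have hYb : |Y| ≤ b := by
      rw [abs_le]
      constructor
      · refine le_of_mul_le_mul_right ?_ hM
        linarith
      · refine le_of_mul_le_mul_right ?_ hM
        linarith
    have hZc : |X + Y| ≤ c := by
      rw [abs_le]
      constructor
      · refine le_of_mul_le_mul_right ?_ hM
        linarith
      · refine le_of_mul_le_mul_right ?_ hM
        linarith
    have h5 := ell hXa hYb hZc
    have h6 : α * (x 1 - y 1) ^ 2 + 2 * β * ((x 1 - y 1) * (x 2 - y 2)) + γ * (x 2 - y 2) ^ 2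
        = (b * X ^ 2 + (a + b - c) * (X * Y) + a * Y ^ 2) * M ^ 2 := by
      have : (b * X ^ 2 + (a + b - c) * (X * Y) + a * Y ^ 2) * M ^ 2
          = b * (X * M) ^ 2 + (a + b - c) * ((X * M) * (Y * M)) + a * (Y * M) ^ 2 := by ring
      rw [this, ← eX, ← eY, hα, hβ, hγ]
      ring
    rw [h6] at hxy
    have h7 : α + γ ≤ 5 / 2 * (a * b * c * M ^ 2) := by
      have := mul_le_mul_of_nonneg_right h5 (by positivity : 0 ≤ M ^ 2)
      linarith
    have h8 : (α + γ) ^ 2 ≤ (5 / 2 * (a * b * c * M ^ 2)) ^ 2 := pow_le_pow_left₀ hpos.le h7 2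
    have h9 : 4 * (R * M ^ 2) ≤ 25 / 4 * (a * b * c) ^ 2 * M ^ 2 * M ^ 2 := by
      calc 4 * (R * M ^ 2) ≤ (5 / 2 * (a * b * c * M ^ 2)) ^ 2 := h4.trans h8
        _ = _ := by ring
    have h10 : 4 * R ≤ 25 / 4 * (a * b * c) ^ 2 * M ^ 2 := by
      refine le_of_mul_le_mul_right ?_ (by positivity : 0 < M ^ 2)
      linarith
    linarith
  obtain ⟨η, hη0, hη5, hη27, hηn⟩ := num ha hb hc' hM hQM
  rw [← hR] at hη27 hηn
  have hR0 : 0 < R := by
    obtain ⟨a1, a2⟩ := ha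
    obtain ⟨b1, b2⟩ := hb
    obtain ⟨c1, c2⟩ := hc'
    rw [hR]
    nlinarith [mul_nonneg (sub_nonneg.2 a1) (sub_nonneg.2 b1),
      mul_nonneg (sub_nonneg.2 b1) (sub_nonneg.2 c1),
      mul_nonneg (sub_nonneg.2 a1) (sub_nonneg.2 c1), mul_nonneg (sub_nonneg.2 a1) (sub_nonneg.2 a2),
      mul_nonneg (sub_nonneg.2 b1) (sub_nonneg.2 b2), mul_nonneg (sub_nonneg.2 c1) (sub_nonneg.2 c2),
      mul_nonneg (sub_nonneg.2 a1) (sub_nonneg.2 b2), mul_nonneg (sub_nonneg.2 b1) (sub_nonneg.2 c2),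
      mul_nonneg (sub_nonneg.2 c1) (sub_nonneg.2 a2)]
  have hD : 0 < u 0 * w 1 - u 1 * w 0 := by rw [hdet]; positivity
  obtain ⟨t, ht⟩ := hole2 hD hη0 (by rw [hdet]; exact hη27)
  set s : ℝ := √(1 - η) with hs
  have hs2 : s ^ 2 = 1 - η := Real.sq_sqrt (by linarith)
  have hs0 : 0 < s := Real.sqrt_pos.2 (by linarith)
  have hpk : Packs K (bh s t u w) := by
    refine hole_packs hs0 hd hD hadm (by rw [hs2]; linarith) fun m n => ?_
    have := ht m n
    rw [hs2]
    linarith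
  refine ⟨bh s t u w, hpk, ?_⟩
  rw [dt_bh, abs_of_pos (mul_pos hs0 hD), ← ENNReal.ofReal_mul (by positivity), hdet]
  have hσ2 : 0 ≤ 6 * (a + b + c - 2) := by linarith [ha.1, hb.1, hc'.1]
  have hkey : √5 * s * (4 * R) ≤ 6 * (a + b + c - 2) := by
    apply le_of_sq_le_sq _ hσ2
    have h5 : √5 ^ 2 = 5 := Real.sq_sqrt (by norm_num)
    calc (√5 * s * (4 * R)) ^ 2 = √5 ^ 2 * s ^ 2 * (4 * R) ^ 2 := by ring
      _ = 5 * (1 - η) * (4 * R) ^ 2 := by rw [h5, hs2]
      _ ≤ _ := hηn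
  have e1 : √5 / 3 * X0 * (s * (M * R)) ≤ X0 * (M * (a + b + c - 2) / 2) := by
    have := mul_le_mul_of_nonneg_left hkey (mul_nonneg hX0 hM.le)
    linarith
  calc ENNReal.ofReal (√5 / 3 * X0 * (s * (M * R)))
      ≤ ENNReal.ofReal (X0 * (M * (a + b + c - 2) / 2)) := ENNReal.ofReal_le_ofReal e1
    _ = ENNReal.ofReal X0 * ENNReal.ofReal (M * (a + b + c - 2) / 2) :=
        ENNReal.ofReal_mul hX0
    _ ≤ ENNReal.ofReal X0 * volume (G K 0) := by gcongr
    _ ≤ volume K := hXv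

end Pool.Agent.X192.ML
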