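import Pool.Agent.TH219.DL.Real

/-!
# The inequality for profiles of small mass
-/

set_option autoImplicit false

namespace Pool.Agent.X192.ML

open MeasureTheory intervalIntegral
open Pool.Agent.TH219.DL

variable {l : ℝ} {f : ℝ → ℝ}

/-- above the threshold the profile has a large mass, with its tail -/
theorem thr3 (hf : Prof l f) {s : ℝ} (hs : 0 < s) (hsl : s ≤ l) (hsl' : 1.118 * s ≤ l)
    (h : 3 / 2 * s < 2 * s * f s ^ 2 + 4 * ∫ t in (s / 2)..s, f t ^ 2) :
    0.63088 * s ≤ ∫ t in (0 : ℝ)..l, f t ^ 2 := by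
  have hsplit0 : ∫ t in (0 : ℝ)..l, f t ^ 2
      = (∫ t in (0 : ℝ)..s, f t ^ 2) + ∫ t in s..l, f t ^ 2 :=
    (intervalIntegral.integral_add_adjacent_intervals (hf.int le_rfl hs.le hsl)
      (hf.int hs.le hsl le_rfl)).symm
  have hsplit : ∫ t in (0 : ℝ)..s, f t ^ 2
      = (∫ t in (0 : ℝ)..(s / 2), f t ^ 2) + ∫ t in (s / 2)..s, f t ^ 2 :=
    (intervalIntegral.integral_add_adjacent_intervals (hf.int le_rfl (by linarith) (by linarith))
      (hf.int (by linarith) (by linarith) hsl)).symm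
  have h1 := hf.low (a := 0) (b := s / 2) le_rfl (by linarith) (by linarith)
  have h2 := hf.low (a := s / 2) (b := s) (by linarith) (by linarith) hsl
  have h3 := hf.upp hs hsl
  have h4 := hf.half hs hsl
  have h5 := hf.nonneg s hs.le hsl
  have h6 := hf.le_one (s := s / 2) (by linarith) (by linarith)
  have h7 := hf.low (a := s) (b := l) hs.le (by linarith) le_rfl
  have h8 := hf.nonneg l hf.l0.le le_rfl
  rw [hf.one] at h1
  set g := f (s / 2)
  set b := f s
  set J := ∫ t in (s / 2)..s, f t ^ 2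
  set J0 := ∫ t in (0 : ℝ)..(s / 2), f t ^ 2
  set T := ∫ t in s..l, f t ^ 2
  rw [hsplit0, hsplit]
  have hT : 0.03933 * s * b ^ 2 ≤ T := by
    have e0 : 0 ≤ b * f l + f l ^ 2 := by positivity
    have e1 : (l - s) * b ^ 2 / 3 ≤ (l - s) * (b ^ 2 + b * f l + f l ^ 2) / 3 := by
      have := mul_nonneg (by linarith : 0 ≤ l - s) e0
      linarith
    have e2 : 0.03933 * s * b ^ 2 ≤ (l - s) * b ^ 2 / 3 := by
      have e3 : 0 ≤ (l - s - 3 * 0.03933 * s) * b ^ 2 :=
        mul_nonneg (by linarith) (sq_nonneg b)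
      linarith
    linarith
  -- divide by s
  obtain ⟨j, hj⟩ : ∃ j, J = s * j := ⟨J / s, by field_simp⟩
  obtain ⟨i, hi⟩ : ∃ i, J0 = s * i := ⟨J0 / s, by field_simp⟩
  rw [hj] at h h2 h3 ⊢
  rw [hi] at h1 ⊢
  have k0 : (1 + g + g ^ 2) / 6 ≤ i := by
    have : s * ((1 + g + g ^ 2) / 6) ≤ s * i := by linarith
    exact le_of_mul_le_mul_left this hs
  have k1 : 3 / 2 < 2 * b ^ 2 + 4 * j := by
    have : s * (3 / 2) < s * (2 * b ^ 2 + 4 * j) := by linarith
    exact lt_of_mul_lt_mul_left this hs.le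
  have k2 : (g ^ 2 + g * b + b ^ 2) / 6 ≤ j := by
    have : s * ((g ^ 2 + g * b + b ^ 2) / 6) ≤ s * j := by linarith
    exact le_of_mul_le_mul_left this hs
  have k3 : j ≤ (7 * g ^ 2 - 5 * g + 1) / 6 := by
    have : s * j ≤ s * ((7 * g ^ 2 - 5 * g + 1) / 6) := by linarith
    exact le_of_mul_le_mul_left this hs
  have k4 : 0.776 ≤ g := by
    by_contra hcon
    push Not at hcon
    have hg : 1 / 2 ≤ g := by linarith
    have hb2 : b ^ 2 ≤ (2 * g - 1) ^ 2 := pow_le_pow_left₀ h5 h4 2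
    nlinarith [mul_nonneg (sub_nonneg.2 hg) (sub_nonneg.2 hcon.le)]
  have k6 : 0.39636 ≤ i := by
    have e1 : 0.776 ^ 2 ≤ g ^ 2 := pow_le_pow_left₀ (by norm_num) k4 2
    linarith
  have k7 : 0.63088 ≤ i + j + 0.03933 * b ^ 2 := by
    rcases le_or_gt b 0.552 with hb | hb
    · have : b ^ 2 ≤ 0.552 ^ 2 := pow_le_pow_left₀ h5 hb 2
      linarith
    · have e1 : 0.776 ^ 2 ≤ g ^ 2 := pow_le_pow_left₀ (by norm_num) k4 2
      have e2 : 0.552 ^ 2 ≤ b ^ 2 := pow_le_pow_left₀ (by norm_num) hb.le 2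
      have e3 : 0.776 * 0.552 ≤ g * b := mul_le_mul k4 hb.le (by norm_num) (by linarith)
      linarith
  have k8 := mul_le_mul_of_nonneg_left k7 hs.le
  linarith

/-- **the profile inequality for profiles of mass at most `0.56417`** -/
theorem main3 (hf : Prof l f) (hX : ∫ t in (0 : ℝ)..l, f t ^ 2 ≤ 0.56417 * l) :
    ∃ s : ℝ, l / 2 ≤ s ∧ s ≤ l ∧ 0.4205 * (3 / 2) * s < ∫ t in (0 : ℝ)..l, f t ^ 2 ∧
      0.4205 * (2 * s * f s ^ 2 + 4 * ∫ t in (s / 2)..s, f t ^ 2) < ∫ t in (0 : ℝ)..l, f t ^ 2 := by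
  have hl := hf.l0
  have hx1 := hf.low (a := 0) (b := l) le_rfl hl le_rfl
  rw [hf.one] at hx1
  have hb0 := hf.nonneg l hl.le le_rfl
  set x := ∫ t in (0 : ℝ)..l, f t ^ 2 with hx
  have hx3 : l / 3 ≤ x := by
    have h1 : 0 ≤ 1 * f l + f l ^ 2 := by positivity
    have h2 : 0 ≤ (l - 0) * (1 * f l + f l ^ 2) := mul_nonneg (by linarith) h1
    linarith
  have hx0 : 0 < x := by linarith
  set s := x / 0.63077 with hs
  have hs0 : 0 < s := by positivity
  have hxs : x = 0.63077 * s := by rw [hs]; field_simp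
  have hsl : 1.118 * s ≤ l := by linarith
  refine ⟨s, by linarith, by linarith, by linarith, ?_⟩
  by_contra hcon
  push Not at hcon
  have h3 := thr3 hf hs0 (by linarith) hsl (by linarith)
  rw [← hx] at h3
  linarith

end Pool.Agent.X192.ML
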