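import Pool.Agent.X192.ML.Top2
import Pool.Agent.X192.ML.Geo3
import Pool.Agent.X192.ML.Prof3
import Pool.Agent.X192.ML.DoubleG
import Pool.Agent.TH219.DL.Bridge

/-!
# Packings by translates of `K` and `-K` of density at least `0.4205`
-/

set_option autoImplicit false

namespace Pool.Agent.X192.ML

open MeasureTheory Filter Topology
open scoped ENNReal
open Pool.Agent.H349R2.Tet
open Pool.Agent.TH219.DL
open Pool.Agent.Y498.ML

/-- from a double lattice to the density -/
theorem dLs_ge {K : Set V} (hKc : IsCompact K) (hc : Convex ℝ K) {δ : ℝ} {v : V}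
    {b : Fin 3 → V} (hb0 : dt b ≠ 0) (h1 : ∀ s ∈ lat b, s ≠ 0 → ¬ Ov K s)
    (h2 : ∀ s ∈ lat b, Disjoint (interior K) (interior (tr (rfl' K v) s)))
    (h3 : ENNReal.ofReal δ * ENNReal.ofReal |dt b| ≤ 2 * volume K) :
    ENNReal.ofReal δ ≤ dLs K := by
  have hli : LinearIndependent ℝ b := (dt_ne_zero_iff b).1 hb0
  have hle : den K (famLs v b) ≤ dLs K := by
    unfold dLs
    exact le_iSup_of_le v (le_iSup₂_of_le b ⟨hli, famLs_pack h1 h2⟩ le_rfl)
  refine le_trans ?_ ((den_famLs K v b).trans hle)
  rw [dens_eq b hli _ (hKc.union (rfl_compact hKc v))]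
  rw [ENNReal.le_div_iff_mul_le (Or.inl (by
    rw [ne_eq, ENNReal.ofReal_eq_zero, not_le]; exact abs_pos.2 hb0)) (Or.inl ENNReal.ofReal_ne_top)]
  refine h3.trans ?_
  have hd : Disjoint (interior K) (interior (rfl' K v)) := by
    have := h2 0 (pack_zero_mem b)
    have e : tr (rfl' K v) 0 = rfl' K v := by unfold tr; simp
    rwa [e] at this
  have hrc : Convex ℝ (rfl' K v) := by
    rintro _ ⟨x, hx, rfl⟩ _ ⟨y, hy, rfl⟩ α β hα hβ hαβ
    refine ⟨α • x + β • y, hc hx hy hα hβ hαβ, ?_⟩
    have e : v = α • v + β • v := by rw [← add_smul, hαβ, one_smul]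
    simp only [smul_sub]
    nth_rewrite 1 [e]
    abel
  calc 2 * volume K = volume (interior K) + volume (interior (rfl' K v)) := by
        rw [vol_int hc, vol_int hrc, vol_rfl hKc.measurableSet, two_mul]
    _ = volume (interior K ∪ interior (rfl' K v)) :=
        (measure_union hd isOpen_interior.measurableSet).symm
    _ ≤ volume (K ∪ rfl' K v) :=
        measure_mono (Set.union_subset_union interior_subset interior_subset)

theorem tr_rfl_image (K : Set V) (L : V ≃ₗ[ℝ] V) (v s : V) :
    tr (rfl' (L '' K) (L v)) (L s) = (fun x => L x + 0) '' tr (rfl' K v) s := by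
  unfold tr rfl'
  simp only [Set.image_image, map_add, map_sub, add_zero]

/-- every convex body in space has a lattice packing or a double lattice packing of density
`≥ 0.4205` -/
theorem ts_or {K : Set V} (hK : Body K) :
    ENNReal.ofReal 0.4205 ≤ dL K ∨ ENNReal.ofReal 0.4205 ≤ dLs K := by
  obtain ⟨L, h1, ⟨x0, h2⟩, h3⟩ := normal2 hK
  obtain ⟨hc, hv, hne⟩ := hK
  have himg : (L '' K) = (fun x => L x + 0) '' K := by
    apply Set.image_congr
    intro x _
    simp
  have hc' : IsCompact (L '' K) := hc.image (LinearMap.continuous_of_finiteDimensional L.toLinearMap)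
  have hv' : Convex ℝ (L '' K) := hv.linear_image L.toLinearMap
  have hne' : (interior (L '' K)).Nonempty := by
    rw [himg, pack_interior_image]
    exact hne.image _
  have hPc := shadow_compact hc'
  have hPi := shadow_interior hne'
  have hPpos : 0 < volume (G (L '' K) 0) :=
    lt_of_lt_of_le (isOpen_interior.measure_pos volume hPi) (measure_mono interior_subset)
  have ha0 : 0 < ar (L '' K) 0 := ENNReal.toReal_pos hPpos.ne' hPc.measure_ne_top
  have hp := prof hc' hv' one_pos h2 ha0
  have hmax : ∀ (x : Fin 2 → ℝ) (c : ℝ), 0 ≤ c → x ∈ G (L '' K) c → c ≤ 1 := by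
    intro x c hc0 hx
    obtain ⟨t, ht1, ht2⟩ := hx
    have := h1 _ ht2 _ ht1
    simp only [cs] at this
    simp at this
    nlinarith
  rcases le_total (∫ t in (0 : ℝ)..1, pf (L '' K) t ^ 2) 0.56417 with hX | hX
  · -- double lattice
    obtain ⟨v', b', hb0, k1, k2, k3⟩ := double_gen hc' hv' hne' (δ := 0.4205) (by norm_num) one_pos
      h2 hmax (main3 hp (by linarith))
    set b : Fin 3 → V := fun i => L.symm (b' i) with hb
    have hbb : (fun i => L (b i)) = b' := by
      funext i
      simp [hb]
    set v : V := L.symm v' with hv0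
    have hvv : L v = v' := by simp [hv0]
    have hb0' : dt b ≠ 0 := by
      rw [dt_ne_zero_iff]
      have hli := (dt_ne_zero_iff b').1 hb0.ne'
      rw [← hbb] at hli
      exact (LinearMap.linearIndependent_iff (v := b) L.toLinearMap (LinearEquiv.ker L)).1 hli
    right
    refine dLs_ge hc hv hb0' (v := v) ?_ ?_ ?_
    · intro s hs hs0 hov
      have hs' : L s ∈ lat b' := by
        rw [← hbb]; exact (pack_lat_image L b s).2 hs
      refine k1 (L s) hs' (fun e => hs0 (L.injective (by rw [e, map_zero]))) ?_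
      rw [himg]
      exact (pack_Ov_image K L 0 s).2 hov
    · intro s hs
      have hs' : L s ∈ lat b' := by
        rw [← hbb]; exact (pack_lat_image L b s).2 hs
      have h := k2 (L s) hs'
      rw [← hvv, tr_rfl_image, pack_interior_image] at h
      rw [himg, pack_interior_image] at h
      rw [Set.disjoint_left] at h ⊢
      intro x hx hx'
      exact h ⟨x, hx, rfl⟩ ⟨x, hx', rfl⟩
    · have hr := ratio_image K L 0 b hb0'
      rw [hbb, ← himg] at hr
      have e1 : ENNReal.ofReal |dt b'| ≠ 0 := by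
        rw [ne_eq, ENNReal.ofReal_eq_zero, not_le]; exact abs_pos.2 hb0.ne'
      have e2 : ENNReal.ofReal |dt b| ≠ 0 := by
        rw [ne_eq, ENNReal.ofReal_eq_zero, not_le]; exact abs_pos.2 hb0'
      rw [← ENNReal.le_div_iff_mul_le (Or.inl e2) (Or.inl ENNReal.ofReal_ne_top), mul_div_assoc,
        ← hr, ← mul_div_assoc, ENNReal.le_div_iff_mul_le (Or.inl e1) (Or.inl ENNReal.ofReal_ne_top),
        abs_of_pos hb0]
      exact k3
  · -- lattice
    have hXv : ENNReal.ofReal 0.56417 * volume (G (L '' K) 0) ≤ volume (L '' K) := by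
      have e : volume (G (L '' K) 0) = ENNReal.ofReal (ar (L '' K) 0) :=
        (ENNReal.ofReal_toReal hPc.measure_ne_top).symm
      have hvol : ENNReal.ofReal (ar (L '' K) 0 * ∫ t in (0 : ℝ)..1, pf (L '' K) t ^ 2)
          ≤ volume (L '' K) := by
        refine le_trans ?_ (vol_ge hc' hv')
        rw [← lint_pf hc' hp ha0 le_rfl zero_le_one le_rfl]
        exact lintegral_mono_set fun c hcc => le_of_lt hcc.1
      refine le_trans ?_ hvol
      rw [e, ← ENNReal.ofReal_mul (by norm_num)]
      apply ENNReal.ofReal_le_ofReal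
      rw [mul_comm]
      exact mul_le_mul_of_nonneg_left hX ha0.le
    obtain ⟨b, hb1, hb2⟩ := geo_low3 hc' hv' hne' h1 (X0 := 0.56417) (by norm_num) hXv h3
    set b' : Fin 3 → V := fun i => L.symm (b i) with hb'
    have hbb : (fun i => L (b' i)) = b := by
      funext i
      simp [hb']
    have hpk : Packs K b' := by
      rw [← packs_image K L 0 b', hbb, ← himg]
      exact hb1
    have hb0 : dt b ≠ 0 := ((packs_iff _ _).1 hb1).1
    have hb0' : dt b' ≠ 0 := ((packs_iff _ _).1 hpk).1
    left
    rw [dL_eq]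
    have hle : dens K b' ≤ deltaL K := by
      unfold deltaL
      exact le_iSup₂_of_le b' hpk le_rfl
    refine le_trans ?_ hle
    rw [dens_eq b' ((dt_ne_zero_iff b').1 hb0') _ hc, ← ratio_image K L 0 b' hb0', hbb, ← himg]
    rw [ENNReal.le_div_iff_mul_le (Or.inl (by
      rw [ne_eq, ENNReal.ofReal_eq_zero, not_le]; exact abs_pos.2 hb0))
      (Or.inl ENNReal.ofReal_ne_top)]
    refine le_trans ?_ hb2
    gcongr
    have h5 : (2.23606 : ℝ) ≤ √5 := Real.le_sqrt_of_sq_le (by norm_num)
    linarith

theorem ts_low {K : Set V} (hK : Body K) : ENNReal.ofReal 0.4205 ≤ dTs K := by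
  rcases ts_or hK with h | h
  · exact h.trans ((dL_le_dT K).trans (dT_le_dTs K))
  · exact h.trans (dLs_le_dTs K)

end Pool.Agent.X192.ML
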