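import Pool.Agent.X192.ML.Geo2
import Pool.Agent.X192.ML.Weight2
import Pool.Agent.Y498.ML.Top

/-!
# The lattice packing density of every convex body in space is at least `√5/9`
-/

set_option autoImplicit false

namespace Pool.Agent.X192.ML

open MeasureTheory Filter Topology Matrix
open scoped ENNReal
open Pool.Agent.H349R2.Tet
open Pool.Agent.TH219.DL
open Pool.Agent.Y498.ML

/-- every convex body has a linear image of diameter one with a vertical chord of length one and a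
wide shadow -/
theorem normal2 {K : Set V} (hK : Body K) : ∃ L : V ≃ₗ[ℝ] V,
    (∀ x ∈ L '' K, ∀ y ∈ L '' K, (x 0 - y 0) ^ 2 + (x 1 - y 1) ^ 2 + (x 2 - y 2) ^ 2 ≤ 1) ∧
    (∃ x0, x0 ∈ G (L '' K) 1) ∧
    ∀ α β γ : ℝ, 0 < α + γ → ∃ x ∈ L '' K, ∃ y ∈ L '' K,
      α + γ ≤ 5 / 2 * (α * (x 1 - y 1) ^ 2 + 2 * β * ((x 1 - y 1) * (x 2 - y 2))
        + γ * (x 2 - y 2) ^ 2) := by
  obtain ⟨hc, hv, hne⟩ := hK
  set D : Set V := (fun p : V × V => p.1 - p.2) '' (K ×ˢ K) with hD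
  have hDc : IsCompact D := (hc.prod hc).image (continuous_fst.sub continuous_snd)
  have hDv : Convex ℝ D := by
    rintro _ ⟨⟨a, b⟩, ⟨ha, hb⟩, rfl⟩ _ ⟨⟨a', b'⟩, ⟨ha', hb'⟩, rfl⟩ s t hs ht hst
    refine ⟨(s • a + t • a', s • b + t • b'), ⟨hv ha ha' hs ht hst, hv hb hb' hs ht hst⟩, ?_⟩
    simp only [smul_sub]
    abel
  have hDs : ∀ x ∈ D, -x ∈ D := by
    rintro _ ⟨⟨a, b⟩, ⟨ha, hb⟩, rfl⟩
    exact ⟨(b, a), ⟨hb, ha⟩, by simp⟩
  have hD0 : D ∈ 𝓝 (0 : V) := by
    obtain ⟨z, hz⟩ := hne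
    have h1 : Tendsto (fun x : V => z + x) (𝓝 0) (𝓝 z) := by
      have : Continuous fun x : V => z + x := by fun_prop
      simpa using this.tendsto 0
    have h2 := h1.eventually (isOpen_interior.mem_nhds hz)
    refine mem_of_superset h2 fun x hx => ?_
    exact ⟨(z + x, z), ⟨interior_subset hx, interior_subset hz⟩, by simp⟩
  obtain ⟨L, hdet, hL1, ι, hι, v, c, hcp, hvu, hsum, hcon⟩ := loewner (by norm_num) hDc hDv hDs hD0
  obtain ⟨i, hi⟩ := weight2 hcp hvu hsum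
  obtain ⟨O, hO1, hO2⟩ := rot (hvu i)
  have hOd : ∀ x y : V, (O *ᵥ x) ⬝ᵥ (O *ᵥ y) = x ⬝ᵥ y := by
    intro x y
    rw [dotProduct_mulVec, ← mulVec_transpose, mulVec_mulVec, hO1, one_mulVec]
  have hOdet : O.det ≠ 0 := by
    intro h
    have := congrArg Matrix.det hO1
    rw [det_mul, det_transpose, h] at this
    simp at this
  have hMdet : LinearMap.det (Matrix.toLin' (O * L)) ≠ 0 := by
    rw [LinearMap.det_toLin', det_mul]
    exact mul_ne_zero hOdet hdet.ne'
  set E := LinearMap.equivOfDetNeZero _ hMdet with hE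
  have hEa : ∀ x : V, E x = O *ᵥ (L *ᵥ x) := by
    intro x
    show Matrix.toLin' (O * L) x = _
    rw [toLin'_apply, ← mulVec_mulVec]
  refine ⟨E, ?_, ?_, ?_⟩
  · rintro _ ⟨x, hx, rfl⟩ _ ⟨y, hy, rfl⟩
    have h1 := hL1 (x - y) ⟨(x, y), ⟨hx, hy⟩, rfl⟩
    rw [← hOd, ← hEa, map_sub] at h1
    simp only [dotProduct, Fin.sum_univ_three, Pi.sub_apply] at h1
    linarith
  · obtain ⟨_, ⟨⟨a, b⟩, ⟨ha, hb⟩, rfl⟩, hab⟩ := hcon i
    simp only at hab
    have h1 : E a - E b = ![1, 0, 0] := by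
      rw [← map_sub, hEa, hab, hO2]
    refine ⟨pr (E b), E b 0, ?_, ?_⟩
    · rw [cs_pr]; exact ⟨b, hb, rfl⟩
    · have e : cs (E b 0 + 1) (pr (E b)) = E a := by
        have h0 := congrFun h1 0
        have h2 := congrFun h1 1
        have h3 := congrFun h1 2
        simp only [Pi.sub_apply, cons_val_zero, cons_val_one, cons_val] at h0 h2 h3
        symm
        apply cs_ext
        · linarith
        · simp only [pr_zero]; linarith
        · simp only [pr_one]; linarith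
      rw [e]
      exact ⟨a, ha, rfl⟩
  · intro α β γ hαγ
    set f : V := ![0, 1, 0] with hf
    set g : V := ![0, 0, 1] with hg
    set x : V := Oᵀ *ᵥ f with hx
    set y : V := Oᵀ *ᵥ g with hy
    have hOO : O * Oᵀ = 1 := mul_eq_one_comm.1 hO1
    have hdot : ∀ z : V, x ⬝ᵥ z = f ⬝ᵥ (O *ᵥ z) := by
      intro z
      rw [hx, mulVec_transpose, dotProduct_mulVec]
    have hdoty : ∀ z : V, y ⬝ᵥ z = g ⬝ᵥ (O *ᵥ z) := by
      intro z
      rw [hy, mulVec_transpose, dotProduct_mulVec]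
    have hxi : x ⬝ᵥ v i = 0 := by
      rw [hdot, hO2, hf]
      simp [dotProduct, Fin.sum_univ_three]
    have hyi : y ⬝ᵥ v i = 0 := by
      rw [hdoty, hO2, hg]
      simp [dotProduct, Fin.sum_univ_three]
    have hxx : x ⬝ᵥ x = 1 := by
      rw [hdot, hx, mulVec_mulVec, hOO, one_mulVec, hf]
      simp [dotProduct, Fin.sum_univ_three]
    have hyy : y ⬝ᵥ y = 1 := by
      rw [hdoty, hy, mulVec_mulVec, hOO, one_mulVec, hg]
      simp [dotProduct, Fin.sum_univ_three]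
    have hxy : x ⬝ᵥ y = 0 := by
      rw [hdot, hy, mulVec_mulVec, hOO, one_mulVec, hf, hg]
      simp [dotProduct, Fin.sum_univ_three]
    obtain ⟨j, hj⟩ := hi x y hxi hyi α β γ (by rw [hxx, hyy, hxy]; linarith)
    obtain ⟨_, ⟨⟨a, b⟩, ⟨ha, hb⟩, rfl⟩, hab⟩ := hcon j
    simp only at hab
    refine ⟨E a, ⟨a, ha, rfl⟩, E b, ⟨b, hb, rfl⟩, ?_⟩
    rw [hxx, hyy, hxy] at hj
    have ex : x ⬝ᵥ v j = E a 1 - E b 1 := by
      rw [← hab, hdot, ← hEa, map_sub, hf]
      simp [dotProduct, Fin.sum_univ_three]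
    have ey : y ⬝ᵥ v j = E a 2 - E b 2 := by
      rw [← hab, hdoty, ← hEa, map_sub, hg]
      simp [dotProduct, Fin.sum_univ_three]
    rw [ex, ey] at hj
    linarith

/-- every convex body in space has a lattice packing of density at least `√5/9` -/
theorem low2 {K : Set V} (hK : Body K) : ENNReal.ofReal (√5 / 9) ≤ dL K := by
  obtain ⟨L, h1, ⟨x0, h2⟩, h3⟩ := normal2 hK
  obtain ⟨hc, hv, hne⟩ := hK
  have himg : (L '' K) = (fun x => L x + 0) '' K := by
    apply Set.image_congr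
    intro x _
    simp
  have hc' : IsCompact (L '' K) := hc.image (LinearMap.continuous_of_finiteDimensional L.toLinearMap)
  have hv' : Convex ℝ (L '' K) := hv.linear_image L.toLinearMap
  have hne' : (interior (L '' K)).Nonempty := by
    rw [himg, pack_interior_image]
    exact hne.image _
  obtain ⟨b, hb1, hb2⟩ := geo_low2 hc' hv' hne' h1 h2 h3
  set b' : Fin 3 → V := fun i => L.symm (b i) with hb'
  have hbb : (fun i => L (b' i)) = b := by
    funext i
    simp [hb']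
  have hpk : Packs K b' := by
    rw [← packs_image K L 0 b', hbb, ← himg]
    exact hb1
  have hb0 : dt b ≠ 0 := ((packs_iff _ _).1 hb1).1
  have hb0' : dt b' ≠ 0 := ((packs_iff _ _).1 hpk).1
  rw [dL_eq]
  have hle : dens K b' ≤ deltaL K := by
    unfold deltaL
    exact le_iSup₂_of_le b' hpk le_rfl
  refine le_trans ?_ hle
  rw [dens_eq b' ((dt_ne_zero_iff b').1 hb0') _ hc, ← ratio_image K L 0 b' hb0', hbb, ← himg]
  rw [ENNReal.le_div_iff_mul_le (Or.inl (by
    rw [ne_eq, ENNReal.ofReal_eq_zero, not_le]; exact abs_pos.2 hb0))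
    (Or.inl ENNReal.ofReal_ne_top)]
  exact hb2

end Pool.Agent.X192.ML
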